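import Pool.Agent.Lib.helper21.VL

set_option autoImplicit false

namespace Pool.Agent.Results.MP_7624cc_lc.Char

open Pool.Agent.Lib.helper21 Pool.Agent.Lib.helper21.PR Pool.Agent.H.MP_fa2eca_lc Encodable
open MeasureTheory
open Pool.Agent.H.MP_e12961_lc (sv sv_spec)

attribute [local irreducible] Primrec Computable

/-- uniformly enumerable relative to `A` -/
def CEin (A : ℕ → Bool) (W : ℕ → List Bool → Prop) : Prop :=
  ∃ g : ℕ → ℕ, TuringReducible (fun n => Part.some (g n)) (Fn.orc A) ∧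
    ∀ n σ, W n σ ↔ ∃ s : ℕ, g (encode (n, σ, s)) = 0

def MLR (A X : ℕ → Bool) : Prop := ∀ W, CEin A W →
  (∀ n, Fn.mu {Y | ∃ m, W n (pre Y m)} ≤ 2⁻¹ ^ n) → ∃ n, ∀ m, ¬ W n (pre X m)

def MinPair (X B : ℕ → Bool) : Prop := ∀ C : ℕ → Bool,
  TuringReducible (Fn.orc C) (Fn.orc X) → TuringReducible (Fn.orc C) (Fn.orc B) → Computable C

def Rnd (A B X : ℕ → Bool) : Prop := MLR A X ∧ MinPair X B

def VanLambalgen (A B : ℕ → Bool) : Prop := ∀ X Y,
  (Rnd A B (jn X Y) ↔ Rnd A B X ∧ Rnd (jn A X) B Y) ∧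
    (Rnd A B (jn X Y) ↔ Rnd A B Y ∧ Rnd (jn A Y) B X)

theorem mlr {A X : ℕ → Bool} : MLR A X ↔ RR A X := by
  refine forall_congr' fun W => imp_congr_left ⟨fun ⟨g, h1, h2⟩ => ?_, fun h => ?_⟩
  · have := CI.of_red h1
    simp only [h2]
    exact RI.un (by fun_prop)
  · obtain ⟨N, h1, h2, -, h3⟩ := h.norm
    have := ci_self A
    refine ⟨fun q => (fun z : ℕ × List Bool × ℕ => if N ((z.1, z.2.1), pre A z.2.2.unpair.1)
      z.2.2.unpair.2 then 0 else 1) ((decode q).getD default), CI.red (by fun_prop), fun n σ => ?_⟩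
    simp only [encodek, Option.getD_some, ite_eq_left_iff, one_ne_zero, imp_false, not_not]
    exact ⟨fun k => let ⟨m, t, a⟩ := h3 (n, σ) k; ⟨m.pair t, by simpa using a⟩,
        fun ⟨_, a⟩ => h2 _ _ _ a⟩

theorem result (A B : ℕ → Bool) : VanLambalgen A B ↔ ∀ Z, MLR A Z → MinPair Z B := by
  simp only [VanLambalgen, Rnd, mlr]
  refine ⟨fun h Z hZ C h1 h2 => by_contra fun c => ?_, fun h X Y => ?_⟩
  · have a : ∀ᵐ W ∂Fn.mu, MinPair W B := by
      have : ∀ e, ∀ᵐ W ∂Fn.mu, CI W (sv e B) → CI (fun _ => false) (sv e B) := fun e =>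
        (em _).elim (fun k => .of_forall fun _ _ => k) fun k => (sacks k).mono fun _ a b => absurd b a
      filter_upwards [ae_all_iff.2 this] with W a D b1 b2
      obtain ⟨e, -, rfl⟩ := sv_spec b2
      have b3 : Computable fun n => (sv e B n).toNat := by
        unfold Computable
        exact RecursiveIn.partrec_of_const (s := Part.some 0) (a e (CI.of_orc b1)).orc
      exact (Computable.comp (f := fun k : ℕ => decide (k = 1)) (by fun_prop) b3).of_eq fun n => by
        cases sv e B n <;> rfl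
    obtain ⟨W, ⟨a1, a2⟩, a3⟩ := (((ae_RR (jn A Z)).and a).and
      ((xor_mp Z).quasiMeasurePreserving.ae a)).exists
    have a4 := (hZ.join a1).swap.right
    have a5 := jn_r A W
    have a6 := jn_l W fun i => xor (Z i) (W i)
    have a7 := jn_r W fun i => xor (Z i) (W i)
    refine c (((h W _).1.2 ⟨⟨a1.mono (jn_l _ _), a2⟩, ?_, a3⟩).2 C (h1.trans (CI.orc ?_)) h2)
    · simpa only [Bool.xor_comm] using a4.map (xor_mp W) (fun _ _ i k => by rw [k i (by omega)])
        (ci_comp (f := fun z : Bool × Bool => xor z.1 z.2) (g := fun z : List Bool × ℕ =>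
          (W z.2, z.1.getD z.2 false)) (ci_prim (by fun_prop)) (by fun_prop))
    · exact (ci_comp (f := fun z : Bool × Bool => xor z.1 z.2) (ci_prim (by fun_prop))
        (ci_pair a7 a6)).of_eq fun i => by simp
  · have k : ∀ X Y, RR A (jn X Y) ∧ MinPair (jn X Y) B ↔ RR A (jn X Y) := fun X Y =>
      and_iff_left_of_imp (h _)
    have l : ∀ X Y, (RR A X ∧ MinPair X B) ∧ RR (jn A X) Y ∧ MinPair Y B ↔ RR A (jn X Y) :=
      fun X Y => by
        rw [vl, and_iff_left_of_imp (h _), and_iff_left_of_imp fun a => h _ (RR.mono a (jn_l _ _))]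
    rw [k, l, l]
    exact ⟨.rfl, RR.swap, RR.swap⟩

end Pool.Agent.Results.MP_7624cc_lc.Char
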